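import Pool.Agent.R451.Icube

/-!
Every `k`-icube in `ℤ^8` (`1 ≤ k ≤ 8`) extends to an `8`-icube.
-/

open Matrix Finset Pool.Agent.R451.Lat

namespace Pool.Agent.Results.MP_710d87_nt.IcubesExtend

/-- `v_1, …, v_k ∈ ℤ^n` is a `k`-icube of norm `lam > 0`: pairwise orthogonal integer vectors, all of
squared length `lam`. -/
def IsIcube {n k : ℕ} (v : Fin k → Fin n → ℤ) (lam : ℤ) : Prop :=
  0 < lam ∧ ∀ i j, v i ⬝ᵥ v j = if i = j then lam else 0

lemma step_one (lam : ℤ) (v : Fin 1 → Fin 8 → ℤ) (hv : IsIcube v lam) :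
    ∃ u : Fin 8 → ℤ, u ⬝ᵥ u = lam ∧ ∀ i, u ⬝ᵥ v i = 0 := by
  have h := hv.2 0 0
  simp only [if_true] at h
  refine ⟨![-v 0 1, v 0 0, -v 0 3, v 0 2, -v 0 5, v 0 4, -v 0 7, v 0 6], ?_, ?_⟩
  · rw [← h]
    simp [dotProduct, Fin.sum_univ_eight]
    ring
  · intro i
    rw [Subsingleton.elim i 0]
    simp [dotProduct, Fin.sum_univ_eight]
    ring

lemma step (lam : ℤ) (k : ℕ) (hk1 : 1 ≤ k) (hk8 : k < 8) (v : Fin k → Fin 8 → ℤ)
    (hv : IsIcube v lam) : ∃ u : Fin 8 → ℤ, u ⬝ᵥ u = lam ∧ ∀ i, u ⬝ᵥ v i = 0 := by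
  rcases Nat.lt_or_ge k 2 with h | h
  · obtain rfl : k = 1 := by omega
    exact step_one lam v hv
  · obtain ⟨T₀, hT₀⟩ := exists_T0 lam hv.1
    exact step_gen (show k + (8 - k) = 8 by omega) (by omega) (by omega) lam hv.1 T₀ hT₀ v hv.2

lemma extend (lam : ℤ) : ∀ (r k : ℕ) (_ : 1 ≤ k) (h : k + r = 8) (v : Fin k → Fin 8 → ℤ)
    (_ : IsIcube v lam), ∃ w : Fin 8 → Fin 8 → ℤ, IsIcube w lam ∧
      ∀ i : Fin k, w (Fin.castLE (by omega) i) = v i := by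
  intro r
  induction r with
  | zero =>
    intro k _ h v hv
    obtain rfl : k = 8 := by omega
    exact ⟨v, hv, fun i => rfl⟩
  | succ r ih =>
    intro k hk h v hv
    obtain ⟨u, huu, huv⟩ := step lam k hk (by omega) v hv
    have hv' : IsIcube (Fin.snoc (α := fun _ => Fin 8 → ℤ) v u) lam := by
      refine ⟨hv.1, ?_⟩
      intro i j
      refine Fin.lastCases ?_ (fun i => ?_) i <;> refine Fin.lastCases ?_ (fun j => ?_) j
      · rw [Fin.snoc_last, huu, if_pos rfl]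
      · rw [Fin.snoc_last, Fin.snoc_castSucc, huv, if_neg (Fin.castSucc_ne_last j).symm]
      · rw [Fin.snoc_last, Fin.snoc_castSucc, dotProduct_comm, huv,
          if_neg (Fin.castSucc_ne_last i)]
      · rw [Fin.snoc_castSucc, Fin.snoc_castSucc, hv.2]
        simp
    obtain ⟨w, hw, hwv⟩ := ih (k + 1) (by omega) (by omega) _ hv'
    refine ⟨w, hw, ?_⟩
    intro i
    have h1 := hwv (Fin.castSucc i)
    rw [Fin.snoc_castSucc] at h1
    exact h1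

/-- **Q1 is true.** For `1 ≤ k ≤ 8`, every `k`-icube in `ℤ^8` extends to an `8`-icube. -/
theorem result (k : ℕ) (hk1 : 1 ≤ k) (hk8 : k ≤ 8) (lam : ℤ) (v : Fin k → Fin 8 → ℤ)
    (hv : IsIcube v lam) :
    ∃ w : Fin 8 → Fin 8 → ℤ, IsIcube w lam ∧ ∀ i : Fin k, w (Fin.castLE hk8 i) = v i :=
  extend lam (8 - k) k hk1 (by omega) v hv

end Pool.Agent.Results.MP_710d87_nt.IcubesExtend
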